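import Pool.Agent.H12.KSJ.Targets

/-!
# NRM1: the norm of a trivial extension (helper7)
-/

open CategoryTheory TopologicalSpace Opposite AlgebraicGeometry Limits
open Pool.Agent.H62.MK Pool.Agent.H84.KEW Pool.Agent.H19.KN
open Pool.Agent.H17.KW (kap Pts entry column dFam D dD Gersten topSh KSh redSh thick thickι Fsh AbSh
  cycK)
open Pool.Agent.H12.KG (Sp GenSp kA stA rho projStr)

universe u

namespace Pool.Agent.H7.KSJ

open Pool.Agent.H12.KSJ

theorem nrm_map_comp {A B C : Type u} [Field A] [Field B] [Field C] (g : A →+* B) (f : B →+* C)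
    (n : ℕ) (x : MilnorK A n) :
    Pool.Agent.H62.MK.map f n (Pool.Agent.H62.MK.map g n x)
      = Pool.Agent.H62.MK.map (f.comp g) n x := by
  have : (Pool.Agent.H62.MK.map f n).comp (Pool.Agent.H62.MK.map g n)
      = Pool.Agent.H62.MK.map (f.comp g) n := by
    refine hom_ext fun a => ?_
    rw [AddMonoidHom.comp_apply, map_sym, map_sym, map_sym]
    congr 1
  exact DFunLike.congr_fun this x

theorem nrm_simple (F E : Type u) [Field F] [Field E] [Algebra F E] (x : E)
    (hx : x ∈ (algebraMap F E).range) (n : ℕ) (y : MilnorK F n) :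
    simpleNorm F x n
      (Pool.Agent.H62.MK.map (algebraMap F (IntermediateField.adjoin F {x})) n y) = y := by
  have hint : IsIntegral F x := by
    obtain ⟨c, rfl⟩ := hx
    exact isIntegral_algebraMap
  have hdeg : (minpoly F x).natDegree = 1 := minpoly.natDegree_eq_one_iff.2 hx
  unfold simpleNorm
  rw [dif_pos hint]
  have : Fact (Irreducible (minpoly F x)) := ⟨minpoly.irreducible hint⟩
  rw [AddMonoidHom.comp_apply, nrm_map_comp]
  have e1 : (((IntermediateField.adjoinRootEquivAdjoin F hint).symm : _ ≃+* _).toRingHom).comp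
      (algebraMap F (IntermediateField.adjoin F {x}))
      = algebraMap F (AdjoinRoot (minpoly F x)) := by
    ext c
    exact (IntermediateField.adjoinRootEquivAdjoin F hint).symm.commutes c
  rw [e1]
  exact nb_norm Pool.Agent.H14.KM.pf_PN ok_FPO ok_INF
    (⟨minpoly F x, minpoly.monic hint, minpoly.irreducible hint⟩ : MI F) hdeg n y

theorem nrm_tower {E : Type u} [Field E] (n : ℕ) (l : List E) :
    ∀ (F : Type u) [Field F] [Algebra F E], Function.Bijective (algebraMap F E) →
    ∀ y : MilnorK F n,
      towerNorm n l F (Pool.Agent.H62.MK.map (algebraMap F E) n y) = y := by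
  induction l with
  | nil =>
    intro F _ _ h y
    rw [towerNorm, dif_pos h]
    exact nb_map_map _ _ (fun z => (RingEquiv.ofBijective (algebraMap F E) h).symm_apply_apply z)
      n y
  | cons x l ih =>
    intro F _ _ h y
    rw [towerNorm, AddMonoidHom.comp_apply]
    have hx : x ∈ (algebraMap F E).range := by
      obtain ⟨c, hc⟩ := h.2 x
      exact ⟨c, hc⟩
    have hb : Function.Bijective (algebraMap (IntermediateField.adjoin F {x}) E) := by
      refine ⟨(algebraMap (IntermediateField.adjoin F {x}) E).injective, fun z => ?_⟩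
      obtain ⟨c, hc⟩ := h.2 z
      exact ⟨algebraMap F (IntermediateField.adjoin F {x}) c, hc⟩
    have e1 : Pool.Agent.H62.MK.map (algebraMap F E) n y
        = Pool.Agent.H62.MK.map (algebraMap (IntermediateField.adjoin F {x}) E) n
          (Pool.Agent.H62.MK.map (algebraMap F (IntermediateField.adjoin F {x})) n y) := by
      rw [nrm_map_comp]
      rfl
    rw [e1, ih (IntermediateField.adjoin F {x}) hb]
    exact nrm_simple F E x hx n y

theorem pf_NRM1 : T_NRM1.{u} := by
  intro F E _ _ _ h n y
  have hfin : FiniteDimensional F E := by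
    have : Module.Finite F F := inferInstance
    exact Module.Finite.of_surjective (Algebra.linearMap F E) h.2
  unfold Pool.Agent.H62.MK.norm
  rw [dif_pos hfin]
  exact nrm_tower n _ F h y

end Pool.Agent.H7.KSJ
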